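import Pool.Agent.Lib.H24N.Main
import Pool.Agent.Lib.H24U.Final

/-!
Concept satisfiability relative to circumscribed `ALCFI` knowledge bases without fixed and
minimized roles is complete for nondeterministic doubly exponential time.
-/

set_option autoImplicit false

namespace Pool.Agent.Results.MP_96d6dd_lc.N2ExpComplete

open Pool.Agent.H24N

theorem result : InN2Exp CircSat ∧ N2ExpHard CircSat := ⟨Pool.Agent.H24U.circSat_in, circSat_hard⟩

end Pool.Agent.Results.MP_96d6dd_lc.N2ExpComplete
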